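import Mathlib
import Pool.Agent.Lib.MP_acc8c3_co.Main

namespace Pool.Agent.Results.MP_acc8c3_co.SpanningCover

theorem result (k : ℕ) (hk : 0 < k) :
    ∃ (V₁ V₂ : Type) (_ : Finite V₁) (_ : Finite V₂) (_ : Nonempty V₁) (_ : Nonempty V₂)
      (χ : (completeBipartiteGraph V₁ V₂).EdgeLabeling (Fin k)),
      (∀ (v : V₁ ⊕ V₂) (i : Fin k), ∃ w, (χ.labelGraph i).Adj v w) ∧
      ∀ C : Finset (Σ i : Fin k, (χ.labelGraph i).ConnectedComponent),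
        (∀ v : V₁ ⊕ V₂, ∃ K ∈ C, v ∈ K.2.supp) → 2 * (k : ℝ) - 4 ≤ (C.card : ℝ) := by
  obtain ⟨V₁, V₂, i1, i2, i3, i4, χ, h1, h2⟩ := Pool.Agent.Lib.MP_acc8c3_co.main k hk
  refine ⟨V₁, V₂, i1, i2, i3, i4, χ, h1, fun C hC => ?_⟩
  have h : ((2 * k : ℕ) : ℝ) ≤ ((C.card + 4 : ℕ) : ℝ) := by exact_mod_cast h2 C hC
  push_cast at h
  linarith

end Pool.Agent.Results.MP_acc8c3_co.SpanningCover
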